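import Pool.Agent.MP_542436_nt.H5.Defs

set_option autoImplicit false

namespace Pool.Agent.MP_542436_nt.H87

open Polynomial Pool.Agent.MP_542436_nt.H5

theorem omega : OmegaStmt := by
  intro a θ ha hθ
  have hM : (1 : ℝ) ≤ max a 1 := le_max_right _ _
  refine ⟨max a 1 ^ ⌈a ^ θ⁻¹⌉₊, by positivity, fun n hn => ?_⟩
  have h1 : a ^ n.primeFactors.card ≤
      ∏ p ∈ n.primeFactors, ((if p < ⌈a ^ θ⁻¹⌉₊ then max a 1 else 1) * (p : ℝ) ^ θ) := by
    rw [← Finset.prod_const]
    refine Finset.prod_le_prod (fun _ _ => ha) fun p hp => ?_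
    have hp1 : (1 : ℝ) ≤ p := by exact_mod_cast (Nat.prime_of_mem_primeFactors hp).one_le
    split_ifs with h
    · exact (le_max_left a 1).trans
        (le_mul_of_one_le_right (by positivity) (Real.one_le_rpow hp1 hθ.le))
    · rw [one_mul]
      have h2 : a ^ θ⁻¹ ≤ p := (Nat.le_ceil _).trans (by exact_mod_cast not_lt.1 h)
      calc a = (a ^ θ⁻¹) ^ θ := (Real.rpow_inv_rpow ha hθ.ne').symm
        _ ≤ (p : ℝ) ^ θ := Real.rpow_le_rpow (by positivity) h2 hθ.le
  refine h1.trans ?_
  rw [Finset.prod_mul_distrib]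
  refine mul_le_mul ?_ ?_ (Finset.prod_nonneg fun _ _ => by positivity) (by positivity)
  · rw [Finset.prod_ite, Finset.prod_const_one, mul_one, Finset.prod_const]
    refine pow_le_pow_right₀ hM ?_
    calc _ ≤ (Finset.range ⌈a ^ θ⁻¹⌉₊).card :=
          Finset.card_le_card fun p hp => Finset.mem_range.2 (Finset.mem_filter.1 hp).2
      _ = _ := Finset.card_range _
  · rw [Real.finsetProd_rpow _ _ (fun _ _ => by positivity), ← Nat.cast_prod]
    refine Real.rpow_le_rpow (by positivity) ?_ hθ.le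
    exact_mod_cast Nat.le_of_dvd (Nat.pos_of_ne_zero hn) (Nat.prod_primeFactors_dvd n)

/-- the completely multiplicative function `n ^ (-θ)` -/
noncomputable def pw (θ : ℝ) : ℕ →* ℝ where
  toFun n := (n : ℝ) ^ (-θ)
  map_one' := by simp
  map_mul' m n := by
    rw [Nat.cast_mul, Real.mul_rpow (Nat.cast_nonneg _) (Nat.cast_nonneg _)]

theorem pw_apply (θ : ℝ) (n : ℕ) : pw θ n = (n : ℝ) ^ (-θ) := rfl

theorem pw_le {θ : ℝ} (hθ : 0 < θ) {p : ℕ} (hp : p.Prime) : pw θ p ≤ (2 : ℝ) ^ (-θ) :=
  Real.rpow_le_rpow_of_nonpos (by norm_num) (by exact_mod_cast hp.two_le) (by linarith)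

theorem smooth : SmoothStmt := by
  classical
  intro θ hθ
  have h2 : (2 : ℝ) ^ (-θ) < 1 := Real.rpow_lt_one_of_one_lt_of_neg (by norm_num) (by linarith)
  have ha : (0 : ℝ) < (1 - (2 : ℝ) ^ (-θ))⁻¹ := inv_pos.2 (by linarith)
  obtain ⟨K, hK, hω⟩ := omega _ θ ha.le hθ
  refine ⟨K, hK, fun D Y hD => ?_⟩
  have hf : ∀ {p : ℕ}, p.Prime → ‖pw θ p‖ < 1 := by
    intro p hp
    rw [Real.norm_of_nonneg (by rw [pw_apply]; positivity)]
    exact (pw_le hθ hp).trans_lt h2
  have hs := (EulerProduct.summable_and_hasSum_factoredNumbers_prod_filter_prime_geometric hf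
    D.primeFactors).2
  set S := (Finset.Icc 1 Y).filter (fun m => ∀ p : ℕ, p.Prime → p ∣ m → p ∣ D) with hS
  have hmem : ∀ m ∈ S, m ∈ Nat.factoredNumbers D.primeFactors := by
    intro m hm
    obtain ⟨h1, h3⟩ := Finset.mem_filter.1 hm
    refine Nat.mem_factoredNumbers'.2 fun p hp hpm => ?_
    exact Nat.mem_primeFactors.2 ⟨hp, h3 p hp hpm, hD⟩
  have h3 : ∑ m ∈ S, pw θ m ≤ ∏ p ∈ D.primeFactors with p.Prime, (1 - pw θ p)⁻¹ := by
    rw [← Finset.sum_subtype_of_mem (fun m => pw θ m) hmem]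
    exact sum_le_hasSum _ (fun m _ => by rw [pw_apply]; positivity) hs
  have h4 : ∏ p ∈ D.primeFactors with p.Prime, (1 - pw θ p)⁻¹ ≤
      ((1 - (2 : ℝ) ^ (-θ))⁻¹) ^ D.primeFactors.card := by
    rw [Finset.filter_true_of_mem fun p hp => Nat.prime_of_mem_primeFactors hp,
      ← Finset.prod_const]
    refine Finset.prod_le_prod (fun p hp => ?_) fun p hp => ?_
    · have := pw_le hθ (Nat.prime_of_mem_primeFactors hp)
      exact inv_nonneg.2 (by linarith)
    · have := pw_le hθ (Nat.prime_of_mem_primeFactors hp)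
      exact inv_anti₀ (by linarith) (by linarith)
  have h5 : (S.card : ℝ) ≤ (Y : ℝ) ^ θ * ∑ m ∈ S, pw θ m := by
    rw [Finset.mul_sum, Finset.card_eq_sum_ones, Nat.cast_sum]
    refine Finset.sum_le_sum fun m hm => ?_
    obtain ⟨h1, h6⟩ := Finset.mem_Icc.1 (Finset.mem_filter.1 hm).1
    have hm0 : (0 : ℝ) < m := by exact_mod_cast h1
    rw [pw_apply, Real.rpow_neg hm0.le, ← div_eq_mul_inv, Nat.cast_one,
      one_le_div (by positivity)]
    exact Real.rpow_le_rpow hm0.le (by exact_mod_cast h6) hθ.le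
  rw [Real.mul_rpow (Nat.cast_nonneg _) (Nat.cast_nonneg _)]
  calc (S.card : ℝ) ≤ (Y : ℝ) ^ θ * (K * (D : ℝ) ^ θ) :=
        h5.trans (mul_le_mul_of_nonneg_left ((h3.trans h4).trans (hω D hD)) (by positivity))
    _ = _ := by ring

theorem card_roots_mod {r : ℕ} {g : ℤ[X]} (hg : g.natDegree ≤ r) {p : ℕ} (hp : p.Prime)
    (hl : ¬ (p : ℤ) ∣ g.coeff r) :
    ((Finset.Ico (0 : ℤ) p).filter (fun y => (p : ℤ) ∣ g.eval y)).card ≤ r := by
  classical
  have := Fact.mk hp
  have h0 : g.map (Int.castRingHom (ZMod p)) ≠ 0 := by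
    intro h
    have := congrArg (fun q => q.coeff r) h
    simp only [coeff_map, eq_intCast, coeff_zero] at this
    exact hl ((ZMod.intCast_zmod_eq_zero_iff_dvd _ _).1 this)
  calc _ ≤ (g.map (Int.castRingHom (ZMod p))).roots.toFinset.card := by
        refine Finset.card_le_card_of_injOn (fun y => (y : ZMod p)) (fun y hy => ?_) ?_
        · have h1 := (Finset.mem_filter.1 (Finset.mem_coe.1 hy)).2
          rw [Finset.mem_coe, Multiset.mem_toFinset, mem_roots h0, IsRoot.def, eval_map]
          show eval₂ (Int.castRingHom (ZMod p)) (Int.castRingHom (ZMod p) y) g = 0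
          rw [eval₂_at_apply, eq_intCast]
          exact (ZMod.intCast_zmod_eq_zero_iff_dvd _ _).2 h1
        · intro x hx y hy hxy
          have h1 := Finset.mem_Ico.1 (Finset.mem_filter.1 (Finset.mem_coe.1 hx)).1
          have h2 := Finset.mem_Ico.1 (Finset.mem_filter.1 (Finset.mem_coe.1 hy)).1
          have h3 := (ZMod.intCast_eq_intCast_iff' x y p).1 hxy
          rwa [Int.emod_eq_of_lt h1.1 h1.2, Int.emod_eq_of_lt h2.1 h2.2] at h3
    _ ≤ Multiset.card (g.map (Int.castRingHom (ZMod p))).roots := Multiset.toFinset_card_le _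
    _ ≤ (g.map (Int.castRingHom (ZMod p))).natDegree := card_roots' _
    _ ≤ r := natDegree_map_le.trans hg

theorem cls : ClassStmt := by
  classical
  rintro r g D m hm hg hlc ⟨U, V, hUV⟩ hco
  have hm0 : (0 : ℤ) < m := by exact_mod_cast hm
  have hnd : ∀ z : ℤ, Prime z → z ∣ (m : ℤ) → ¬ z ∣ D := fun z hz h1 h2 =>
    hz.not_isUnit (hco.isUnit_of_dvd' h1 h2)
  refine ⟨(Finset.Ico (0 : ℤ) m).filter (fun x => (m : ℤ) ∣ g.eval x), ?_, ?_⟩
  · calc _ ≤ (Fintype.piFinset fun p : m.primeFactors =>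
          (Finset.Ico (0 : ℤ) (p : ℕ)).filter (fun y => ((p : ℕ) : ℤ) ∣ g.eval y)).card := by
          refine Finset.card_le_card_of_injOn (fun x p => x % ((p : ℕ) : ℤ)) (fun x hx => ?_) ?_
          · have h1 := (Finset.mem_filter.1 (Finset.mem_coe.1 hx)).2
            rw [Finset.mem_coe, Fintype.mem_piFinset]
            intro p
            have hp0 : (0 : ℤ) < (p : ℕ) := by
              exact_mod_cast (Nat.prime_of_mem_primeFactors p.2).pos
            have hpm : ((p : ℕ) : ℤ) ∣ m := by exact_mod_cast Nat.dvd_of_mem_primeFactors p.2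
            refine Finset.mem_filter.2 ⟨Finset.mem_Ico.2
              ⟨Int.emod_nonneg _ hp0.ne', Int.emod_lt_of_pos _ hp0⟩, ?_⟩
            have h2 : ((p : ℕ) : ℤ) ∣ g.eval x - g.eval (x % ((p : ℕ) : ℤ)) :=
              (Int.dvd_self_sub_emod).trans (sub_dvd_eval_sub _ _ g)
            have h3 := dvd_sub (hpm.trans h1) h2
            rwa [sub_sub_cancel] at h3
          · intro x hx y hy hxy
            obtain ⟨h1, h2⟩ := Finset.mem_filter.1 (Finset.mem_coe.1 hx)
            obtain ⟨h3, h4⟩ := Finset.mem_filter.1 (Finset.mem_coe.1 hy)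
            rw [Finset.mem_Ico] at h1 h3
            obtain ⟨k, hk⟩ := binomExpansion g y (x - y)
            rw [add_sub_cancel] at hk
            have h5 : (m : ℤ) ∣ (x - y) * (g.derivative.eval y + k * (x - y)) := by
              have := dvd_sub h2 h4
              rwa [show g.eval x - g.eval y = (x - y) * (g.derivative.eval y + k * (x - y)) by
                rw [hk]; ring] at this
            have h6 : IsCoprime (m : ℤ) (g.derivative.eval y + k * (x - y)) := by
              refine isCoprime_of_prime_dvd (fun h => hm0.ne' h.1) fun z hz hzm hzw => ?_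
              have hp : z.natAbs ∈ m.primeFactors :=
                Nat.mem_primeFactors.2 ⟨Int.prime_iff_natAbs_prime.1 hz,
                  by simpa using Int.natAbs_dvd_natAbs.2 hzm, hm.ne'⟩
              have h7 : z ∣ x - y := by
                have h8 : x % (z.natAbs : ℤ) = y % (z.natAbs : ℤ) := congrFun hxy ⟨_, hp⟩
                exact Int.natAbs_dvd.1 (Int.ModEq.dvd h8.symm)
              have h8 : z ∣ g.derivative.eval y := (dvd_add_left (h7.mul_left k)).1 hzw
              refine hnd z hz hzm ?_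
              have h9 := congrArg (eval y) hUV
              rw [eval_add, eval_mul, eval_mul, eval_C] at h9
              rw [← h9]
              exact dvd_add ((hzm.trans h4).mul_left _) (h8.mul_left _)
            have h7 := h6.dvd_of_dvd_mul_right h5
            have h8 := Int.eq_zero_of_abs_lt_dvd h7 (abs_lt.2 ⟨by linarith, by linarith⟩)
            linarith
      _ ≤ r ^ m.primeFactors.card := by
          rw [Fintype.card_piFinset, ← Fintype.card_coe m.primeFactors, ← Finset.card_univ]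
          refine Finset.prod_le_pow_card _ _ _ fun p _ => ?_
          have hp := Nat.prime_of_mem_primeFactors p.2
          refine card_roots_mod hg hp fun h => ?_
          exact hnd _ (Nat.prime_iff_prime_int.1 hp)
            (by exact_mod_cast Nat.dvd_of_mem_primeFactors p.2) (h.trans hlc)
  · intro t ht hv'
    have hc : IsCoprime t.1 t.2 := Int.isCoprime_iff_gcd_eq_one.2 ht
    have h1 : IsCoprime (m : ℤ) t.2 := by
      refine isCoprime_of_prime_dvd (fun h => hm0.ne' h.1) fun z hz hzm hzt => ?_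
      have h2 : z ∣ g.coeff r * t.1 ^ r := by
        have h3 := hzm.trans hv'
        rw [hv, Finset.sum_range_succ, Nat.sub_self, pow_zero, mul_one] at h3
        refine (dvd_add_right (Finset.dvd_sum fun k hk => ?_)).1 h3
        exact (dvd_pow hzt (by have := Finset.mem_range.1 hk; omega)).mul_left _
      rcases hz.dvd_or_dvd h2 with h3 | h3
      · exact hnd z hz hzm (h3.trans hlc)
      · exact hz.not_isUnit (hc.isUnit_of_dvd' (hz.dvd_of_dvd_pow h3) hzt)
    obtain ⟨u, v, huv⟩ := h1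
    have h2 : (m : ℤ) ∣ t.1 - (v * t.1) % m * t.2 := by
      have h3 : (m : ℤ) ∣ v * t.1 - (v * t.1) % m := Int.dvd_self_sub_emod
      have h4 : t.1 - (v * t.1) % m * t.2 = m * (u * t.1) + (v * t.1 - (v * t.1) % m) * t.2 := by
        linear_combination (-t.1) * huv
      rw [h4]
      exact dvd_add (Dvd.intro _ rfl) (h3.mul_right _)
    refine ⟨(v * t.1) % m, Finset.mem_filter.2 ⟨Finset.mem_Ico.2
      ⟨Int.emod_nonneg _ hm0.ne', Int.emod_lt_of_pos _ hm0⟩, ?_⟩, h2⟩
    generalize (v * t.1) % m = x at h2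
    have h3 : (m : ℤ) ∣ hv g r t - g.eval x * t.2 ^ r := by
      rw [hv, eval_eq_sum_range' (Nat.lt_succ_of_le hg), Finset.sum_mul, ← Finset.sum_sub_distrib]
      refine Finset.dvd_sum fun k hk => ?_
      have hk' : k ≤ r := Nat.lt_succ_iff.1 (Finset.mem_range.1 hk)
      have h4 : g.coeff k * t.1 ^ k * t.2 ^ (r - k) - g.coeff k * x ^ k * t.2 ^ r =
          g.coeff k * t.2 ^ (r - k) * (t.1 ^ k - (x * t.2) ^ k) := by
        rw [← pow_mul_pow_sub t.2 hk', mul_pow, pow_mul_pow_sub t.2 hk']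
        rw [← pow_mul_pow_sub t.2 hk']
        ring
      rw [h4]
      exact (h2.trans (sub_dvd_pow_sub_pow _ _ k)).mul_left _
    have h4 := dvd_sub hv' h3
    rw [sub_sub_cancel] at h4
    exact (IsCoprime.pow_right ⟨u, v, huv⟩).dvd_of_dvd_mul_right h4

end Pool.Agent.MP_542436_nt.H87
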